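import Pool.Agent.H14Trans.Cor

/-!
# The translation property of sets of B-free numbers under a light window condition
-/

set_option autoImplicit false

open Filter Topology

namespace Pool.Agent.Results.MP_7f59f9_nt.LightWindows

/-- `A_B`: the positive integers divisible by no element of `B`. -/
def avoiders (B : Set ℕ) : Set ℕ := {m | 0 < m ∧ ∀ b ∈ B, ¬ b ∣ m}

/-- Some `t ≥ 1` satisfies `a ∈ A ↔ a + t ∈ A` for all `1 ≤ a ≤ n`. -/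
def HasTranslate (A : Set ℕ) (n : ℕ) : Prop :=
  ∃ t : ℕ, 1 ≤ t ∧ ∀ a : ℕ, 1 ≤ a → a ≤ n → (a ∈ A ↔ a + t ∈ A)

/-- The translation property. -/
def TranslationProperty (A : Set ℕ) : Prop := ∀ n : ℕ, 1 ≤ n → HasTranslate A n

/-- `B` is a pairwise coprime set of positive integers. -/
def PairwiseCoprime (B : Set ℕ) : Prop :=
  (∀ b ∈ B, 1 ≤ b) ∧ ∀ b ∈ B, ∀ c ∈ B, b ≠ c → Nat.Coprime b c

open Classical in
/-- `S_B(x) = ∑_{b ∈ B, b < x} 1 / b` for real `x`. -/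
noncomputable def S (B : Set ℕ) (x : ℝ) : ℝ :=
  ∑ b ∈ (Finset.range ⌈x⌉₊).filter (fun b => b ∈ B), 1 / (b : ℝ)

theorem result :
    (∀ n : ℕ, 1 ≤ n → ∃ K : ℕ, ∃ η : ℝ, 0 < η ∧ ∃ x₀ : ℝ, ∀ B : Set ℕ, PairwiseCoprime B →
      (∃ x : ℝ, x₀ ≤ x ∧ S B (x ^ K) - S B x < η) → HasTranslate (avoiders B) n) ∧
    (∀ B : Set ℕ, PairwiseCoprime B →
      (∀ K : ℕ, 2 ≤ K → ∀ η : ℝ, 0 < η → ∀ x₀ : ℝ, ∃ x : ℝ, x₀ ≤ x ∧
        S B (x ^ K) - S B x < η) → TranslationProperty (avoiders B)) ∧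
    (∀ n : ℕ, 1 ≤ n → ∃ c : ℝ, 0 < c ∧ ∀ B : Set ℕ, PairwiseCoprime B →
      (∀ x₀ : ℝ, ∃ x : ℝ, x₀ ≤ x ∧ S B x ≤ c * Real.log (Real.log x)) →
        HasTranslate (avoiders B) n) ∧
    (∀ B : Set ℕ, PairwiseCoprime B →
      (∀ ε : ℝ, 0 < ε → ∀ x₀ : ℝ, ∃ x : ℝ, x₀ ≤ x ∧ S B x ≤ ε * Real.log (Real.log x)) →
        TranslationProperty (avoiders B)) ∧
    (∃ B : Set ℕ, (∀ b ∈ B, Nat.Prime b) ∧
      Tendsto (fun x : ℝ => S B x / Real.log (Real.log x)) atTop (𝓝 1) ∧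
        TranslationProperty (avoiders B)) := by
  have conv : ∀ (B : Set ℕ) (n : ℕ), (∃ t ≥ 1, ∀ a, 1 ≤ a → a ≤ n →
      ((∀ b ∈ B, ¬ b ∣ a) ↔ ∀ b ∈ B, ¬ b ∣ a + t)) → HasTranslate (avoiders B) n := by
    rintro B n ⟨t, ht, h⟩
    refine ⟨t, ht, fun a ha han => ?_⟩
    constructor
    · rintro ⟨_, h2⟩
      exact ⟨Nat.add_pos_left ha t, (h a ha han).mp h2⟩
    · rintro ⟨_, h2⟩
      exact ⟨ha, (h a ha han).mpr h2⟩
  have hS : ∀ (B : Set ℕ) (x : ℝ), S B x = Pool.Agent.H14Trans.recip B x := fun B x => rfl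
  have h1 : ∀ n : ℕ, 1 ≤ n → ∃ K : ℕ, 2 ≤ K ∧ ∃ η : ℝ, 0 < η ∧ ∃ x₀ : ℝ, ∀ B : Set ℕ,
      PairwiseCoprime B → (∃ x : ℝ, x₀ ≤ x ∧ S B (x ^ K) - S B x < η) →
      HasTranslate (avoiders B) n := by
    intro n hn
    obtain ⟨K, hK, η, hη, x₀, h⟩ := Pool.Agent.H14Trans.window' n hn
    exact ⟨K, hK, η, hη, x₀, fun B hB ⟨x, hx, hw⟩ => conv B n (h B hB.1 hB.2 x hx hw)⟩
  have h2 : ∀ B : Set ℕ, PairwiseCoprime B →
      (∀ K : ℕ, 2 ≤ K → ∀ η : ℝ, 0 < η → ∀ x₀ : ℝ, ∃ x : ℝ, x₀ ≤ x ∧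
        S B (x ^ K) - S B x < η) → TranslationProperty (avoiders B) := by
    intro B hB h n hn
    obtain ⟨K, hK, η, hη, x₀, h3⟩ := h1 n hn
    exact h3 B hB (h K hK η hη x₀)
  have h3 : ∀ n : ℕ, 1 ≤ n → ∃ c : ℝ, 0 < c ∧ ∀ B : Set ℕ, PairwiseCoprime B →
      (∀ x₀ : ℝ, ∃ x : ℝ, x₀ ≤ x ∧ S B x ≤ c * Real.log (Real.log x)) →
        HasTranslate (avoiders B) n := by
    intro n hn
    obtain ⟨K, hK, η, hη, x₀, h4⟩ := h1 n hn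
    have hlK : 0 < Real.log K := Real.log_pos (by exact_mod_cast (by omega : 1 < K))
    refine ⟨η / (4 * Real.log K), by positivity, fun B hB h => h4 B hB ?_⟩
    exact Pool.Agent.H14Trans.window_of_small (S := S B)
      (fun x y hxy => Pool.Agent.H14Trans.recip_mono B hxy)
      (fun x => Pool.Agent.H14Trans.recip_nonneg B x) hK hη x₀ h
  refine ⟨fun n hn => ?_, h2, h3, fun B hB h n hn => ?_, ?_⟩
  · obtain ⟨K, _, η, hη, x₀, h4⟩ := h1 n hn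
    exact ⟨K, η, hη, x₀, h4⟩
  · obtain ⟨c, hc, h4⟩ := h3 n hn
    exact h4 B hB (h c hc)
  · refine ⟨Pool.Agent.H14Trans.exB, fun b hb => hb.1, Pool.Agent.H14Trans.exB_asymp, ?_⟩
    refine h2 _ ⟨fun b hb => hb.1.one_lt.le, fun b hb c hc hbc =>
      (Nat.coprime_primes hb.1 hc.1).mpr hbc⟩ ?_
    intro K hK η hη x₀
    obtain ⟨x, hx, h4⟩ := Pool.Agent.H14Trans.exB_window (K := K) (by omega) x₀
    refine ⟨x, hx, ?_⟩
    rw [hS, hS, h4]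
    exact hη

end Pool.Agent.Results.MP_7f59f9_nt.LightWindows
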