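import Pool.Agent.H40.TransNeg

/-!
# The translation property fails with `S_B(x) ≤ log log x - K` for every constant `K`
-/

set_option autoImplicit false

namespace Pool.Agent.Results.MP_7f59f9_nt.NoConstantShift

/-- `A_B`: the positive integers divisible by no element of `B`. -/
def avoiders (B : Set ℕ) : Set ℕ := {m | 0 < m ∧ ∀ b ∈ B, ¬ b ∣ m}

/-- Some `t ≥ 1` satisfies `a ∈ A ↔ a + t ∈ A` for all `1 ≤ a ≤ n`. -/
def HasTranslate (A : Set ℕ) (n : ℕ) : Prop :=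
  ∃ t : ℕ, 1 ≤ t ∧ ∀ a : ℕ, 1 ≤ a → a ≤ n → (a ∈ A ↔ a + t ∈ A)

/-- The translation property. -/
def TranslationProperty (A : Set ℕ) : Prop := ∀ n : ℕ, 1 ≤ n → HasTranslate A n

open Classical in
/-- `S_B(x) = ∑_{b ∈ B, b < x} 1 / b` for real `x`. -/
noncomputable def S (B : Set ℕ) (x : ℝ) : ℝ :=
  ∑ b ∈ (Finset.range ⌈x⌉₊).filter (fun b => b ∈ B), 1 / (b : ℝ)

theorem result :
    (∀ B : Set ℕ, 1 ∉ B → {p : ℕ | Nat.Prime p ∧ p ∉ B}.Finite →
      ¬ TranslationProperty (avoiders B)) ∧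
    (∀ K : ℝ, ∃ B : Set ℕ, (∀ b ∈ B, Nat.Prime b) ∧
      (∃ x₀ : ℝ, ∀ x : ℝ, x₀ ≤ x → S B x ≤ Real.log (Real.log x) - K) ∧
        ¬ TranslationProperty (avoiders B)) := by
  have main : ∀ B : Set ℕ, 1 ∉ B → {p : ℕ | Nat.Prime p ∧ p ∉ B}.Finite →
      ¬ TranslationProperty (avoiders B) := by
    intro B h1 hfin hT
    obtain ⟨n, hn, h⟩ := Pool.Agent.H40.TransNeg.not_translation B h1 hfin
    obtain ⟨t, ht, h2⟩ := hT n hn
    exact h t ht h2
  refine ⟨main, fun K => ?_⟩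
  obtain ⟨y, hy⟩ := exists_nat_ge (Real.exp (Real.exp (|K| + 10)))
  have he1 : (1 : ℝ) + (|K| + 10) ≤ Real.exp (|K| + 10) := by
    have := Real.add_one_le_exp (|K| + 10); linarith
  have hK := abs_nonneg K
  have he2 : Real.exp (|K| + 10) + 1 ≤ Real.exp (Real.exp (|K| + 10)) :=
    Real.add_one_le_exp _
  have hy2 : (2 : ℝ) ≤ y := by linarith
  have hy2' : 2 ≤ y := by exact_mod_cast hy2
  have hlog : Real.exp (|K| + 10) ≤ Real.log y := by
    rw [Real.le_log_iff_exp_le (by linarith)]; exact hy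
  have hloglog : |K| + 10 ≤ Real.log (Real.log y) := by
    rw [Real.le_log_iff_exp_le (by linarith)]; exact hlog
  have hsmall : 9 / Real.log y ≤ 9 := by
    rw [div_le_iff₀ (by linarith)]; linarith
  set B : Set ℕ := {p | Nat.Prime p ∧ y ≤ p} with hB
  refine ⟨B, fun b hb => hb.1, ⟨y, fun x hx => ?_⟩, main B (fun h => Nat.not_prime_one h.1) ?_⟩
  · have h1 := Pool.Agent.H40.TransNeg.sum_le hy2' hx
    have h2 : S B x = ∑ p ∈ (Finset.Ico y ⌈x⌉₊).filter Nat.Prime, (1 : ℝ) / p := by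
      unfold S
      refine Finset.sum_congr ?_ fun _ _ => rfl
      ext p
      simp only [Finset.mem_filter, Finset.mem_range, Finset.mem_Ico, hB, Set.mem_ofPred_eq]
      tauto
    rw [h2]
    have := le_abs_self K
    linarith
  · refine (Set.finite_lt_nat y).subset ?_
    intro p hp
    simp only [hB, Set.mem_ofPred_eq, not_and, not_le] at hp
    exact hp.2 hp.1

end Pool.Agent.Results.MP_7f59f9_nt.NoConstantShift
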