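import Pool.Agent.H40R.Neg2
import Pool.Agent.H40R.Lln

/-!
# The translation property of random sets of `B`-free numbers, with a sharp exponent
-/

set_option autoImplicit false

open Filter Topology MeasureTheory ProbabilityTheory

namespace Pool.Agent.Results.MP_7f59f9_nt.RandomSets

/-- `A_B`: the positive integers divisible by no element of `B`. -/
def avoiders (B : Set ℕ) : Set ℕ := {m | 0 < m ∧ ∀ b ∈ B, ¬ b ∣ m}

/-- Some `t ≥ 1` satisfies `a ∈ A ↔ a + t ∈ A` for all `1 ≤ a ≤ n`. -/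
def HasTranslate (A : Set ℕ) (n : ℕ) : Prop :=
  ∃ t : ℕ, 1 ≤ t ∧ ∀ a : ℕ, 1 ≤ a → a ≤ n → (a ∈ A ↔ a + t ∈ A)

/-- The translation property. -/
def TranslationProperty (A : Set ℕ) : Prop := ∀ n : ℕ, 1 ≤ n → HasTranslate A n

/-- `B` is a pairwise coprime set of positive integers. -/
def PairwiseCoprime (B : Set ℕ) : Prop :=
  (∀ b ∈ B, 1 ≤ b) ∧ ∀ b ∈ B, ∀ c ∈ B, b ≠ c → Nat.Coprime b c

open Classical in
/-- `S_B(x) = ∑_{b ∈ B, b < x} 1 / b` for real `x`. -/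
noncomputable def S (B : Set ℕ) (x : ℝ) : ℝ :=
  ∑ b ∈ (Finset.range ⌈x⌉₊).filter (fun b => b ∈ B), 1 / (b : ℝ)

/-- The random set `B(ω)` of all powers `b ^ κ_b(ω)` with `b ∈ U` and `κ_b(ω) ≥ 1`; the exponent
`κ_b(ω) = 0` means that `b` contributes no element. -/
def RandomSet {Ω : Type} (U : Set ℕ) (κ : ℕ → Ω → ℕ) (ω : Ω) : Set ℕ :=
  {m | ∃ b ∈ U, 1 ≤ κ b ω ∧ m = b ^ κ b ω}

/-- The primes. -/
def Primes : Set ℕ := {p | Nat.Prime p}

/-- The primes larger than `y`. -/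
def PrimesAbove (y : ℕ) : Set ℕ := {p | Nat.Prime p ∧ y < p}

theorem result (Ω : Type) [MeasurableSpace Ω] (μ : Measure Ω) [IsProbabilityMeasure μ]
    (κ : ℕ → Ω → ℕ) :
    (∀ U : Set ℕ, PairwiseCoprime U → (∀ b ∈ U, MeasurableSet {ω | κ b ω = 1}) →
      iIndepSet (fun b : U => {ω | κ b ω = 1}) μ →
      (∀ ε : ℝ, 0 < ε → ∀ C x₀ : ℕ, ∃ x : ℕ, x₀ ≤ x ∧
        ∀ b ∈ U, x < b → b ≤ x ^ C → (b : ℝ) ^ (-ε) ≤ μ.real {ω | κ b ω ≠ 1}) →
      ∀ᵐ ω ∂μ, TranslationProperty (avoiders (RandomSet U κ ω))) ∧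
    (∀ c : ℝ, c < 1 → (∀ p ∈ Primes, MeasurableSet {ω | κ p ω = 1}) →
      iIndepSet (fun p : Primes => {ω | κ p ω = 1}) μ →
      (∀ p ∈ Primes, μ.real {ω | κ p ω = 1} = c) → (∀ p ∈ Primes, ∀ ω, κ p ω ≤ 1) →
      ∀ᵐ ω ∂μ, TranslationProperty (avoiders (RandomSet Primes κ ω)) ∧
        Tendsto (fun x : ℝ => S (RandomSet Primes κ ω) x / Real.log (Real.log x)) atTop (𝓝 c)) ∧
    (∀ ε : ℝ, 0 < ε → ∀ y : ℕ, 8 / ε + 2 ≤ y →
      iIndepSet (fun p : PrimesAbove y => {ω | κ p ω = 1}) μ →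
      (∃ p₀ : ℕ, ∀ p ∈ PrimesAbove y, p₀ ≤ p → μ.real {ω | κ p ω ≠ 1} ≤ (p : ℝ) ^ (-ε)) →
      ∀ᵐ ω ∂μ, ¬ TranslationProperty (avoiders (RandomSet (PrimesAbove y) κ ω))) := by
  have conv : ∀ (B : Set ℕ) (n : ℕ), Pool.Agent.H40R.Tr n B → HasTranslate (avoiders B) n := by
    rintro B n ⟨t, ht, h⟩
    refine ⟨t, ht, fun a ha han => ?_⟩
    constructor
    · rintro ⟨_, h2⟩
      exact ⟨Nat.add_pos_left ha t, (h a ha han).mp h2⟩
    · rintro ⟨_, h2⟩
      exact ⟨ha, (h a ha han).mpr h2⟩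
  have conv' : ∀ (B : Set ℕ) (n : ℕ), HasTranslate (avoiders B) n → Pool.Agent.H40R.Tr n B := by
    rintro B n ⟨t, ht, h⟩
    refine ⟨t, ht, fun a ha han => ?_⟩
    constructor
    · intro h2
      exact ((h a ha han).mp ⟨ha, h2⟩).2
    · intro h2
      exact ((h a ha han).mpr ⟨Nat.add_pos_left ha t, h2⟩).2
  have part1 : ∀ U : Set ℕ, PairwiseCoprime U → (∀ b ∈ U, MeasurableSet {ω | κ b ω = 1}) →
      iIndepSet (fun b : U => {ω | κ b ω = 1}) μ →
      (∀ ε : ℝ, 0 < ε → ∀ C x₀ : ℕ, ∃ x : ℕ, x₀ ≤ x ∧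
        ∀ b ∈ U, x < b → b ≤ x ^ C → (b : ℝ) ^ (-ε) ≤ μ.real {ω | κ b ω ≠ 1}) →
      ∀ᵐ ω ∂μ, TranslationProperty (avoiders (RandomSet U κ ω)) := by
    intro U hU hE hI hlow
    set U' : Set ℕ := {b | b ∈ U ∧ b ≠ 1} with hU'
    have hI' : iIndepSet (fun b : U' => {ω | κ b ω = 1}) μ := by
      rw [iIndepSet_iff_iIndep] at hI ⊢
      exact hI.precomp (g := fun b : U' => (⟨b, b.2.1⟩ : U)) (fun a b hab => by
        have := congrArg (fun z : U => (z : ℕ)) hab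
        exact Subtype.ext this)
    have key := Pool.Agent.H40R.ae_translate (BB := U') (E := fun b => {ω | κ b ω = 1})
      (B := fun ω => RandomSet U' κ ω) (fun b hb => hU.1 b hb.1)
      (fun b hb c hc hbc => hU.2 b hb.1 c hc.1 hbc) (fun b hb => hE b hb.1) hI'
      (fun ω m ⟨b, hb, h1, h2⟩ => ⟨b, hb, _, h1, h2⟩) ?_ ?_
    · filter_upwards [key] with ω hω n hn
      by_cases h1 : 1 ∈ RandomSet U κ ω
      · refine ⟨1, le_rfl, fun a _ _ => ⟨fun h => absurd (one_dvd a) (h.2 1 h1),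
          fun h => absurd (one_dvd (a + 1)) (h.2 1 h1)⟩⟩
      · have : RandomSet U κ ω = RandomSet U' κ ω := by
          ext m
          constructor
          · rintro ⟨b, hb, h2, rfl⟩
            refine ⟨b, ⟨hb, fun hb1 => h1 ?_⟩, h2, rfl⟩
            exact ⟨b, hb, h2, by rw [hb1, one_pow]⟩
          · rintro ⟨b, hb, h2, h3⟩
            exact ⟨b, hb.1, h2, h3⟩
        rw [this]
        exact conv _ n (hω n hn)
    · rintro ω b hb ⟨d, hd, h1, h2⟩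
      have hb2 : 2 ≤ b := by
        have := hU.1 b hb.1
        have := hb.2
        omega
      have hdb : d = b := by
        by_contra hne
        have h3 : Nat.Coprime d b := hU.2 d hd.1 b hb.1 hne
        have h4 : d ∣ b := by rw [h2]; exact dvd_pow_self d (by omega)
        have h5 : d = 1 := Nat.Coprime.eq_one_of_dvd h3 h4
        exact hd.2 h5
      subst hdb
      have h3 : d ^ 1 = d ^ κ d ω := by rw [pow_one]; exact h2
      exact (Nat.pow_right_injective hb2 h3).symm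
    · intro ε hε C x₀
      obtain ⟨x, hx, h⟩ := hlow ε hε C x₀
      exact ⟨x, hx, fun b hb h1 h2 => h b hb.1 h1 h2⟩
  refine ⟨part1, ?_, ?_⟩
  · intro c hc hE hI hEc hκ
    have hset : ∀ ω, RandomSet Primes κ ω =
        {p | p ∈ Pool.Agent.H40R.PP ∧ ω ∈ (fun p => {ω | κ p ω = 1}) p} := by
      intro ω
      ext m
      constructor
      · rintro ⟨p, hp, h1, rfl⟩
        have h2 : κ p ω = 1 := le_antisymm (hκ p hp ω) h1
        rw [h2, pow_one]
        exact ⟨hp, h2⟩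
      · rintro ⟨hp, h1⟩
        have h1' : κ m ω = 1 := h1
        exact ⟨m, hp, h1'.ge, by rw [h1', pow_one]⟩
    have hl := Pool.Agent.H40R.lln (μ := μ) (E := fun p => {ω | κ p ω = 1}) (c := c) hE hI hEc
    have ht := part1 Primes ⟨fun p hp => (hp : Nat.Prime p).one_le,
      fun p hp q hq hpq => (Nat.coprime_primes hp hq).mpr hpq⟩ hE hI ?_
    · filter_upwards [hl, ht] with ω h1 h2
      refine ⟨h2, ?_⟩
      rw [hset ω]
      exact h1
    · intro ε hε C x₀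
      have hlim : Tendsto (fun x : ℕ => (x : ℝ) ^ (-ε)) atTop (𝓝 0) :=
        (tendsto_rpow_neg_atTop hε).comp tendsto_natCast_atTop_atTop
      obtain ⟨x, hx⟩ := eventually_atTop.mp (hlim.eventually (ge_mem_nhds (sub_pos.mpr hc)))
      refine ⟨max x x₀, le_max_right _ _, fun b hb hxb _ => ?_⟩
      have h3 : {ω | κ b ω ≠ 1} = {ω | κ b ω = 1}ᶜ := rfl
      rw [h3, probReal_compl_eq_one_sub (hE b hb), hEc b hb]
      exact hx b ((le_max_left _ _).trans hxb.le)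
  · rintro ε hε y hy hI ⟨p₀, hq⟩
    have hJ : 4 / ε ≤ (⌈4 / ε⌉₊ : ℕ) := Nat.le_ceil _
    have hJy : 2 * ⌈4 / ε⌉₊ ≤ y := by
      have h1 : (⌈4 / ε⌉₊ : ℝ) < 4 / ε + 1 := Nat.ceil_lt_add_one (by positivity)
      have h2 : ((2 * ⌈4 / ε⌉₊ : ℕ) : ℝ) ≤ y := by
        push_cast
        have : 8 / ε = 2 * (4 / ε) := by ring
        linarith
      exact_mod_cast h2
    have hBE : ∀ ω, ∀ p ∈ Pool.Agent.H40R.UP y, ω ∈ {ω | κ p ω = 1} →
        p ∈ RandomSet (PrimesAbove y) κ ω := by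
      intro ω p hp h
      have h' : κ p ω = 1 := h
      exact ⟨p, hp, h'.ge, by rw [h', pow_one]⟩
    filter_upwards [Pool.Agent.H40R.ae_no_translate_up (μ := μ) (E := fun p => {ω | κ p ω = 1})
      (B := fun ω => RandomSet (PrimesAbove y) κ ω) hI hε hJ hJy
      (fun ω m ⟨b, hb, h1, h2⟩ => ⟨b, hb, _, h1, h2⟩) hBE hq] with ω hω hT
    obtain ⟨n, hn, hnot⟩ := hω
    exact hnot (conv' _ n (hT n hn))

end Pool.Agent.Results.MP_7f59f9_nt.RandomSets
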