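import Pool.Agent.H1AES.Mert

/-!
# Removing an arbitrarily sparse set restores the translation property
-/

set_option autoImplicit false

open Filter

namespace Pool.Agent.Results.MP_7f59f9_nt.SparseRemoval

/-- `A_B`: the positive integers divisible by no element of `B`. -/
def avoiders (B : Set ℕ) : Set ℕ := {m | 0 < m ∧ ∀ b ∈ B, ¬ b ∣ m}

/-- Some `t ≥ 1` satisfies `a ∈ A ↔ a + t ∈ A` for all `1 ≤ a ≤ n`. -/
def HasTranslate (A : Set ℕ) (n : ℕ) : Prop :=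
  ∃ t : ℕ, 1 ≤ t ∧ ∀ a : ℕ, 1 ≤ a → a ≤ n → (a ∈ A ↔ a + t ∈ A)

/-- The translation property. -/
def TranslationProperty (A : Set ℕ) : Prop := ∀ n : ℕ, 1 ≤ n → HasTranslate A n

/-- `B` is a pairwise coprime set of positive integers. -/
def PairwiseCoprime (B : Set ℕ) : Prop :=
  (∀ b ∈ B, 1 ≤ b) ∧ ∀ b ∈ B, ∀ c ∈ B, b ≠ c → Nat.Coprime b c

open Classical in
/-- The number of elements of `R` that are at most `x`. -/
noncomputable def count (R : Set ℕ) (x : ℕ) : ℕ :=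
  ((Finset.range (x + 1)).filter (fun b => b ∈ R)).card

open Classical in
/-- `S_B(x) = ∑_{b ∈ B, b < x} 1 / b` for real `x`. -/
noncomputable def S (B : Set ℕ) (x : ℝ) : ℝ :=
  ∑ b ∈ (Finset.range ⌈x⌉₊).filter (fun b => b ∈ B), 1 / (b : ℝ)

theorem result :
    (∀ B₀ : Set ℕ, PairwiseCoprime B₀ → ∀ f : ℕ → ℕ, Tendsto f atTop atTop →
      ∃ R : Set ℕ, R ⊆ B₀ ∧ (∀ x : ℕ, count R x ≤ f x) ∧
        ∀ B : Set ℕ, B ⊆ B₀ → Disjoint B R → TranslationProperty (avoiders B)) ∧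
    (∀ f : ℕ → ℕ, Tendsto f atTop atTop →
      ∃ B : Set ℕ, (∀ b ∈ B, Nat.Prime b) ∧ (∀ x : ℕ, count {p | Nat.Prime p ∧ p ∉ B} x ≤ f x) ∧
        (∀ x : ℝ, 3 ≤ x → |S B x - Real.log (Real.log x)| ≤ 16) ∧
          TranslationProperty (avoiders B)) := by
  have conv : ∀ (B : Set ℕ) (n : ℕ), (∃ t ≥ 1, ∀ a, 1 ≤ a → a ≤ n →
      ((∀ b ∈ B, ¬ b ∣ a) ↔ ∀ b ∈ B, ¬ b ∣ a + t)) → HasTranslate (avoiders B) n := by
    rintro B n ⟨t, ht, h⟩
    refine ⟨t, ht, fun a ha han => ?_⟩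
    constructor
    · rintro ⟨_, h2⟩
      exact ⟨Nat.add_pos_left ha t, (h a ha han).mp h2⟩
    · rintro ⟨_, h2⟩
      exact ⟨ha, (h a ha han).mpr h2⟩
  have h1 : ∀ B₀ : Set ℕ, PairwiseCoprime B₀ → ∀ f : ℕ → ℕ, Tendsto f atTop atTop →
      ∃ R : Set ℕ, R ⊆ B₀ ∧ (∀ x : ℕ, count R x ≤ f x) ∧
        ∀ B : Set ℕ, B ⊆ B₀ → Disjoint B R → TranslationProperty (avoiders B) := by
    intro B₀ hB₀ f hf
    obtain ⟨R, hR, hcount, h⟩ := Pool.Agent.H1AES.sparse B₀ hB₀.2 f hf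
    exact ⟨R, hR, hcount, fun B hB hd n hn => conv B n (h B hB hd n hn)⟩
  refine ⟨h1, fun f hf => ?_⟩
  have hlog : Tendsto (fun x : ℕ => Nat.log 2 x) atTop atTop := by
    refine tendsto_atTop.mpr (fun m => eventually_atTop.mpr ⟨2 ^ m, fun x hx => ?_⟩)
    exact (Nat.le_log_iff_pow_le (by norm_num) (by
      have : 0 < 2 ^ m := by positivity
      omega)).mpr hx
  have hmin : Tendsto (fun x : ℕ => min (f x) (Nat.log 2 x)) atTop atTop := by
    refine tendsto_atTop.mpr (fun m => ?_)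
    filter_upwards [tendsto_atTop.mp hf m, tendsto_atTop.mp hlog m] with x hx1 hx2
    exact le_min hx1 hx2
  obtain ⟨R, hR, hcount, h⟩ := h1 {p | Nat.Prime p}
    ⟨fun p hp => Nat.Prime.one_lt hp |>.le, fun p hp q hq hpq =>
      (Nat.coprime_primes hp hq).mpr hpq⟩ _ hmin
  have heq : {p | Nat.Prime p ∧ p ∉ ({p | Nat.Prime p ∧ p ∉ R} : Set ℕ)} = R := by
    ext p
    simp only [Set.mem_ofPred_eq]
    constructor
    · rintro ⟨hp, hn⟩
      by_contra hpR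
      exact hn ⟨hp, hpR⟩
    · intro hpR
      exact ⟨hR hpR, fun hn => hn.2 hpR⟩
  refine ⟨{p | Nat.Prime p ∧ p ∉ R}, fun b hb => hb.1, fun x => ?_, fun x hx => ?_, ?_⟩
  · rw [heq]
    exact (hcount x).trans (min_le_left _ _)
  · refine Pool.Agent.H1AES.mertens_bound {p | Nat.Prime p ∧ p ∉ R} (fun b hb => hb.1)
      (fun y => ?_) x hx
    have h2 := (hcount y).trans (min_le_right _ _)
    refine le_trans (le_of_eq ?_) h2
    unfold count
    congr 1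
    ext p
    simp only [Finset.mem_filter, Set.mem_ofPred_eq]
    constructor
    · rintro ⟨h3, h4, h5⟩
      refine ⟨h3, ?_⟩
      by_contra hpR
      exact h5 ⟨h4, hpR⟩
    · rintro ⟨h3, h4⟩
      exact ⟨h3, hR h4, fun hn => hn.2 h4⟩
  · exact h _ (fun b hb => hb.1) (Set.disjoint_left.mpr (fun b hb hbR => hb.2 hbR))

end Pool.Agent.Results.MP_7f59f9_nt.SparseRemoval
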